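import Pool.Agent.Helper48.CovMain

/-!
# Double covering by classes modulo the primes up to `N`

For every constant `C` and every large `N` there is a choice of one residue class modulo each
prime `p ≤ N` such that every integer in `[1, C N]` lies in at least two of the chosen classes.
The case `C = 1` is the weaker version (threshold two) of the question of Erdős.
-/

set_option autoImplicit false

namespace Pool.Agent.Results.MP_b14a1c_nt.DoubleCover

/-- Every integer in `[1, C N]` can be covered twice by classes modulo the primes up to `N`. -/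
theorem result : ∀ C : ℕ, ∃ N₀ : ℕ, ∀ N : ℕ, N₀ ≤ N → ∃ a : ℕ → ℕ, ∀ m : ℕ, 1 ≤ m → m ≤ C * N →
    2 ≤ ((Finset.range (N + 1)).filter (fun p => p.Prime ∧ m ≡ a p [MOD p])).card := by
  intro C
  rcases Nat.eq_zero_or_pos C with hC | hC
  · refine ⟨0, fun N _ => ⟨fun _ => 0, fun m h1 h2 => ?_⟩⟩
    rw [hC, Nat.zero_mul] at h2
    omega
  · obtain ⟨N₀, h⟩ := Pool.Agent.Helper48.Cov.two_cover_main C hC
    exact ⟨N₀, fun N hN => h N hN⟩

end Pool.Agent.Results.MP_b14a1c_nt.DoubleCover
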