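import Pool.Agent.Helper15.RC.Main

/-!
# Every choice of classes leaves an integer with few covers

For every choice of one residue class modulo each prime `p ≤ N` some integer in `[1, N]` lies in at
most `C log log log log N` of the chosen classes.
-/

set_option autoImplicit false

namespace Pool.Agent.Results.MP_b14a1c_nt.FewCovers

/-- No threshold larger than a constant times the four times iterated logarithm can be reached. -/
theorem result : ∃ C : ℝ, ∃ N₀ : ℕ, ∀ N : ℕ, N₀ ≤ N → ∀ a : ℕ → ℕ, ∃ m : ℕ, 1 ≤ m ∧ m ≤ N ∧
    (((Finset.range (N + 1)).filter (fun p => p.Prime ∧ m ≡ a p [MOD p])).card : ℝ) ≤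
      C * Real.log (Real.log (Real.log (Real.log N))) :=
  Pool.Agent.Helper15.RC.upper

end Pool.Agent.Results.MP_b14a1c_nt.FewCovers
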