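import Pool.Agent.Helper48.CovRFold

/-!
# Covering `r` times by classes modulo the primes up to `N`

For every `r ≥ 2` there is `c > 0` such that for every large `N` there is a choice of one residue
class modulo each prime `p ≤ N` such that every integer in
`[1, c N / (log log N) ^ (r - 2)]` lies in at least `r` of the chosen classes.
-/

set_option autoImplicit false

namespace Pool.Agent.Results.MP_b14a1c_nt.ManyFold

/-- An interval of length a constant times `N / (log log N) ^ (r - 2)` can be covered `r` times. -/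
theorem result : ∀ r : ℕ, 2 ≤ r → ∃ c : ℝ, 0 < c ∧ ∃ N₀ : ℕ, ∀ N : ℕ, N₀ ≤ N →
    ∃ a : ℕ → ℕ, ∀ m : ℕ, 1 ≤ m → (m : ℝ) ≤ c * N / Real.log (Real.log N) ^ (r - 2) →
      r ≤ ((Finset.range (N + 1)).filter (fun p => p.Prime ∧ m ≡ a p [MOD p])).card :=
  fun r hr => Pool.Agent.Helper48.Cov.r_cover r hr

end Pool.Agent.Results.MP_b14a1c_nt.ManyFold
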